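import Mathlib.Analysis.Complex.AbsMax
import Mathlib.Analysis.InnerProductSpace.PiL2
import Mathlib.Analysis.InnerProductSpace.Convex
import Mathlib.Analysis.InnerProductSpace.Calculus
import Pool.Agent.MP_eddcad_an.h17.Least

set_option autoImplicit false

namespace Pool.Agent.MP_eddcad_an.h49

open MvPolynomial Filter Topology

/-- A polynomial map of degree `d` with at most `N` components taking the unit sphere to the
unit sphere. -/
def Sph (n N d : ℕ) : Prop :=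
  ∃ (ι : Type) (_ : Fintype ι) (g : ι → MvPolynomial (Fin n) ℂ), Fintype.card ι ≤ N ∧
    (∀ t, (g t).totalDegree ≤ d) ∧ (∃ t, g t ≠ 0 ∧ (g t).totalDegree = d) ∧
    ∀ z : Fin n → ℂ, ∑ i, ‖z i‖ ^ 2 = 1 → ∑ t, ‖eval z (g t)‖ ^ 2 = 1

theorem poly_eq_of_eventually {n : ℕ} {p q : MvPolynomial (Fin n) ℂ} {c : Fin n → ℂ}
    (h : ∀ᶠ y in 𝓝 c, eval y p = eval y q) : p = q := by
  obtain ⟨ε, hε, h⟩ := Metric.eventually_nhds_iff.1 h
  refine funext_set (fun i => Metric.ball (c i) ε)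
    (fun i => infinite_of_mem_nhds (c i) (Metric.ball_mem_nhds _ hε)) fun x hx => h ?_
  exact (dist_pi_lt_iff hε).2 fun i => hx i trivial

theorem isOpen_ball' (n : ℕ) : IsOpen (unitBall n) :=
  isOpen_lt (by fun_prop) continuous_const

theorem Sph.fin {n N d : ℕ} (h : Sph n N d) : ∃ g : Fin N → MvPolynomial (Fin n) ℂ,
    (∀ t, (g t).totalDegree ≤ d) ∧ (∃ t, g t ≠ 0 ∧ (g t).totalDegree = d) ∧
    ∀ z : Fin n → ℂ, ∑ i, ‖z i‖ ^ 2 = 1 → ∑ t, ‖eval z (g t)‖ ^ 2 = 1 := by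
  classical
  obtain ⟨ι, _, g₀, hcard, h1, ⟨i₀, hi₀, hi₁⟩, h4⟩ := h
  obtain ⟨emb⟩ : Nonempty (ι ↪ Fin N) :=
    Function.Embedding.nonempty_of_card_le (by simpa using hcard)
  let g : Fin N → MvPolynomial (Fin n) ℂ := Function.extend emb g₀ 0
  have hg1 : ∀ i, g (emb i) = g₀ i := fun i => emb.injective.extend_apply g₀ 0 i
  have hg2 : ∀ j, (¬ ∃ i, emb i = j) → g j = 0 := fun j hj =>
    Function.extend_apply' g₀ (0 : Fin N → MvPolynomial (Fin n) ℂ) j hj
  refine ⟨g, fun j => ?_, ⟨emb i₀, by rwa [hg1], by rwa [hg1]⟩, fun z hz => ?_⟩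
  · by_cases hj : ∃ i, emb i = j
    · obtain ⟨i, rfl⟩ := hj
      rw [hg1]
      exact h1 i
    · rw [hg2 j hj]; simp
  · rw [← h4 z hz, ← Finset.sum_subset (Finset.subset_univ (Finset.univ.map emb)),
      Finset.sum_map]
    · exact Finset.sum_congr rfl fun i _ => by rw [hg1]
    · intro j _ hj
      rw [hg2 j (by simpa using hj)]
      simp

theorem Sph.polyDeg {n N d : ℕ} (hn : 0 < n) (hd : 1 ≤ d) (h : Sph n N d) : PolyDeg n N d := by
  obtain ⟨g, h1, ⟨t₀, -, h2⟩, h4⟩ := h.fin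
  have hdiff : Differentiable ℂ fun (z : Fin n → ℂ) j => eval z (g j) :=
    differentiable_pi.2 fun j z => (analyticAt_eval _ z).differentiableAt
  refine ⟨g, h1, ⟨t₀, h2⟩, proper_of_sphere _ hdiff (fun z hz => ?_) h4⟩
  have : Nonempty (Fin n) := ⟨⟨0, hn⟩⟩
  let G : (Fin n → ℂ) → EuclideanSpace ℂ (Fin N) := fun z => WithLp.toLp 2 fun j => eval z (g j)
  have hG : Differentiable ℂ G :=
    ((EuclideanSpace.equiv (Fin N) ℂ).symm.differentiable).comp hdiff
  have hn2 : ∀ y, ‖G y‖ ^ 2 = ∑ j, ‖eval y (g j)‖ ^ 2 := fun y => EuclideanSpace.norm_sq_eq _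
  have hb : Bornology.IsBounded (unitBall n) := by
    refine (Metric.isBounded_closedBall (x := (0 : Fin n → ℂ)) (r := 1)).subset fun y hy => ?_
    rw [Metric.mem_closedBall, dist_zero_right, pi_norm_le_iff_of_nonneg zero_le_one]
    intro i
    have h3 : ‖y i‖ ^ 2 ≤ ∑ i, ‖y i‖ ^ 2 :=
      Finset.single_le_sum (f := fun i => ‖y i‖ ^ 2) (fun _ _ => sq_nonneg _) (Finset.mem_univ i)
    have h5 : ∑ i, ‖y i‖ ^ 2 < 1 := hy
    exact (sq_le_one_iff₀ (norm_nonneg _)).1 (h3.trans h5.le)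
  have hle : ∀ y ∈ unitBall n, ‖G y‖ ≤ 1 := by
    intro y hy
    refine Complex.norm_le_of_forall_mem_frontier_norm_le hb hG.diffContOnCl (fun w hw => ?_)
      (subset_closure hy)
    have h5 : ∑ i, ‖w i‖ ^ 2 = 1 :=
      frontier_lt_subset_eq (f := fun w : Fin n → ℂ => ∑ i, ‖w i‖ ^ 2) (g := fun _ => (1 : ℝ))
        (by fun_prop) continuous_const hw
    exact (sq_le_one_iff₀ (norm_nonneg _)).1 ((hn2 w).trans (h4 w h5)).le
  by_contra hlt
  have hz1 : 1 ≤ ‖G z‖ := by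
    have h5 : 1 ≤ ‖G z‖ ^ 2 := by rw [hn2]; exact not_lt.1 hlt
    exact (one_le_sq_iff₀ (norm_nonneg _)).1 h5
  have hmax : IsLocalMax (norm ∘ G) z := by
    filter_upwards [(isOpen_ball' n).mem_nhds (show z ∈ unitBall n from hz)] with y hy
    exact (hle y hy).trans hz1
  have hev := Complex.eventually_eq_of_isLocalMax_norm
    (Eventually.of_forall fun y => hG y) hmax
  have e : g t₀ = C (eval z (g t₀)) := by
    refine poly_eq_of_eventually (c := z) ?_
    filter_upwards [hev] with y hy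
    have h5 := congrArg (fun v : EuclideanSpace ℂ (Fin N) => v t₀) hy
    simpa [G] using h5
  rw [e, totalDegree_C] at h2
  omega

theorem Sph.mono {n N N' d : ℕ} (h : Sph n N d) (hN : N ≤ N') : Sph n N' d := by
  obtain ⟨ι, _, g, h0, h1⟩ := h
  exact ⟨ι, inferInstance, g, h0.trans hN, h1⟩

theorem Sph.tensor {n N M d e : ℕ} (h : Sph n (N + 1) d) (h' : Sph n M e) :
    Sph n (N + M) (d + e) := by
  obtain ⟨g, hd, ⟨i₀, hi, hi'⟩, hs⟩ := h.fin
  obtain ⟨g', hd', ⟨k₀, hk, hk'⟩, hs'⟩ := h'.fin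
  refine ⟨Fin N ⊕ Fin M, inferInstance,
    Sum.elim (fun i => g (i₀.succAbove i)) (fun k => g i₀ * g' k), by simp, ?_,
    ⟨Sum.inr k₀, mul_ne_zero hi hk, ?_⟩, fun z hz => ?_⟩
  · rintro (i | k)
    · exact (hd _).trans (Nat.le_add_right _ _)
    · exact (totalDegree_mul _ _).trans (add_le_add (hd _) (hd' _))
  · simp only [Sum.elim_inr]
    rw [totalDegree_mul_of_isDomain hi hk, hi', hk']
  · simp only [Fintype.sum_sum_type, Sum.elim_inl, Sum.elim_inr, map_mul, norm_mul, mul_pow]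
    rw [← Finset.mul_sum, hs' z hz, mul_one, add_comm, ← hs z hz, Fin.sum_univ_succAbove _ i₀]

theorem sph_one (n : ℕ) : Sph n 1 0 :=
  ⟨Unit, inferInstance, fun _ => 1, by simp, by simp, ⟨(), by simp⟩, by simp⟩

theorem sph_id (n : ℕ) : Sph (n + 1) (n + 1) 1 :=
  ⟨Fin (n + 1), inferInstance, fun i => X i, by simp, fun i => by simp,
    ⟨0, X_ne_zero _, by simp⟩, fun z hz => by simpa using hz⟩

theorem Sph.add_deg {n N d : ℕ} (h : Sph (n + 1) (N + 1) d) (r : ℕ) :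
    Sph (n + 1) (N + r * n + 1) (d + r) := by
  induction r with
  | zero => simpa using h
  | succ r ih =>
    have h2 := ih.tensor (sph_id n)
    rwa [show N + r * n + (n + 1) = N + (r + 1) * n + 1 by ring,
      show d + r + 1 = d + (r + 1) by ring] at h2

theorem _root_.Pool.Agent.MP_eddcad_an.h17.Graded.sph {n N d : ℕ} (h : h17.Graded n N d) :
    Sph n N d := by
  obtain ⟨g, m, hh, -, hd, ⟨i₀, hi, hi'⟩, hs⟩ := h
  exact ⟨Fin N, inferInstance, g, by simp, fun j => (hh j).totalDegree_le.trans (hd j),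
    ⟨i₀, hi, hi' ▸ (hh i₀).totalDegree hi⟩, hs⟩

theorem le_of_ratDegLE {n N d e : ℕ} {g : Fin N → MvPolynomial (Fin n) ℂ} (hd : 1 ≤ d)
    (h2 : ∃ j, (g j).totalDegree = d) (h : RatDegLE (fun z j => eval z (g j)) e) : d ≤ e := by
  obtain ⟨j, hj⟩ := h2
  obtain ⟨P, Q, hP, -, h⟩ := h
  have h0 : (0 : Fin n → ℂ) ∈ unitBall n := by simp [unitBall]
  have e1 : g j * Q = P j := by
    refine poly_eq_of_eventually (c := 0) ?_
    filter_upwards [(isOpen_ball' n).mem_nhds h0] with x hx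
    obtain ⟨hq, hp⟩ := h x hx
    have := hp j
    simp only at this
    rw [map_mul, this, div_mul_cancel₀ _ hq]
  have hQ : Q ≠ 0 := by
    rintro rfl
    exact (h 0 h0).1 (by simp)
  have hg : g j ≠ 0 := by
    intro h0
    rw [h0, totalDegree_zero] at hj
    omega
  have e2 := totalDegree_mul_of_isDomain hg hQ
  have := hP j
  rw [← e1, e2, hj] at this
  omega

theorem exists_block (N : ℕ) : ∃ j : ℕ, 3 * (j + 1) * j ≤ N ∧ N < 3 * (j + 1) * (j + 2) := by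
  induction N with
  | zero => exact ⟨0, by simp⟩
  | succ N ih =>
    obtain ⟨j, h1, h2⟩ := ih
    rcases Nat.lt_or_ge (N + 1) (3 * (j + 1) * (j + 2)) with h | h
    · exact ⟨j, by omega, h⟩
    · exact ⟨j + 1, by nlinarith, by nlinarith⟩

theorem arith_range {N d : ℕ} (h : 27 * d ^ 2 ≤ 4 * N ^ 3) (hd : 1 ≤ d) :
    d + 3 ≤ 2 * N ∨
      ∃ j a r : ℕ, j ≤ a ∧ d = (j + 1) * a + r ∧ j ^ 2 + a + r + 1 ≤ N := by
  rcases Nat.lt_or_ge (2 * N) (d + 3) with h0 | h0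
  swap
  · exact Or.inl h0
  right
  obtain ⟨j, h1, h2⟩ := exists_block N
  have hj : 2 ≤ j := by
    by_contra hj
    have hN : N < 18 := by
      have : j = 0 ∨ j = 1 := by omega
      rcases this with rfl | rfl <;> omega
    have h3 : (2 * N - 2) ^ 2 ≤ d ^ 2 := Nat.pow_le_pow_left (by omega) 2
    have h4 : 1 ≤ d ^ 2 := Nat.one_le_pow _ _ hd
    interval_cases N <;> omega
  refine ⟨j, d / (j + 1), d % (j + 1), ?_, (Nat.div_add_mod d (j + 1)).symm, ?_⟩
  · rw [Nat.le_div_iff_mul_le (by omega)]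
    nlinarith
  · by_contra hc
    have h3 : d % (j + 1) < j + 1 := Nat.mod_lt _ (by omega)
    have h4 : (j + 1) * (d / (j + 1)) ≤ d := Nat.mul_div_le d (j + 1)
    have h5 : N ≤ j ^ 2 + j + d / (j + 1) := by omega
    obtain ⟨s, rfl⟩ : ∃ s, N = 3 * (j + 1) * j + s := ⟨N - 3 * (j + 1) * j, by omega⟩
    have h6 : s < 6 * (j + 1) := by nlinarith
    have h7 : (j + 1) * (2 * j ^ 2 + 2 * j + s) ≤ d := by
      refine le_trans (Nat.mul_le_mul_left _ ?_) h4
      nlinarith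
    have h8 := (Nat.mul_le_mul_left 27 (Nat.pow_le_pow_left h7 2)).trans h
    zify at h8 h6 hj
    set k : ℤ := (j : ℤ) + 1 with hk
    have hj' : (j : ℤ) = k - 1 := by omega
    rw [hj'] at h8
    have hs : (0 : ℤ) ≤ s := Int.natCast_nonneg s
    have hk3 : 3 ≤ k := by omega
    have h9 : ((s : ℤ) - 3 * k) ^ 2 ≤ 9 * k ^ 2 := by nlinarith
    have h10 : (9 * k ^ 2 - 12 * k + 4 * s : ℤ) ≤ 9 * k ^ 2 + 12 * k := by omega
    have h11 : (0 : ℤ) ≤ 9 * k ^ 2 - 12 * k + 4 * s := by nlinarith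
    have h12 : ((s : ℤ) - 3 * k) ^ 2 * (9 * k ^ 2 - 12 * k + 4 * s) ≤
        9 * k ^ 2 * (9 * k ^ 2 + 12 * k) := mul_le_mul h9 h10 h11 (by positivity)
    have h13 : (0 : ℤ) < k ^ 3 * (k ^ 2 - 2 * k - 1) := mul_pos (by positivity) (by nlinarith)
    have h14 : (0 : ℤ) ≤ k ^ 3 * s := by positivity
    nlinarith

end Pool.Agent.MP_eddcad_an.h49
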