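import Pool.Agent.MP_eddcad_an.h49.Order
import Pool.Agent.MP_eddcad_an.h19.Rel

/-! The degree bound in a superpolynomial range of target dimensions. -/

set_option autoImplicit false

noncomputable section

namespace Pool.Agent.MP_eddcad_an.h49

open MvPolynomial Module Filter Topology Matrix H52 H24
open scoped ComplexOrder

variable {k N : ℕ}

theorem caseC {F : Option (Fin N) → PP (k + 2 + 1)}
    {U : Matrix (Fin (k + 2 + 1)) (Fin (k + 2 + 1)) ℂ} {f : Fin N → ℂ} {d e : ℕ}
    (hF : ∀ j, (F j).totalDegree ≤ d)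
    (hf : ∀ j, eval (fun l => U l 0) (F (some j)) = eval (fun l => U l 0) (F none) * f j)
    (h1 : f ⬝ᵥ star f = 1) (h2 : ∀ v, ∀ x ∈ WW F U f v, x ⬝ᵥ star f = 0)
    (h3 : ∀ v v', v ⬝ᵥ star v' = 0 → ∀ x ∈ WW F U f v, ∀ x' ∈ WW F U f v', x ⬝ᵥ star x' = 0)
    {q : ℕ → ℕ} (φ : (a : ℕ) → Fin (q a) → ℕ → AA (k + 2 + 1)) {δ : AA (k + 2 + 1)}
    (hd : d ≤ ∑ a ∈ Finset.range (d + 1), q a)
    (hk : ∀ a x, ∀ l < a, ∀ j,
      ∑ k ∈ Finset.range (d + 1), φ a x (k + l) * (LL (F j)).coeff k = 0)
    (hi : ∀ y, eval y δ ≠ 0 → ∀ a ≤ d, LinearIndependent ℂ fun x j => eval y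
      (sg F d (φ a x) j * (LL (F none)).coeff 0 - sg F d (φ a x) none * (LL (F j)).coeff 0))
    (hδ : ∀ i, eval (pt U (Pi.single i 1)) δ ≠ 0)
    (hN : N ≤ (k + 3 + e).choose (e + 2) + 1) (he : 1 ≤ e)
    (hke : 2 * ((e + 1) * (e + 2)) ≤ k + 1) : d * (k + 2) + 1 ≤ N := by
  classical
  obtain ⟨x, hx⟩ : ∃ x : (a : ℕ) → Fin (q a) → (Fin (k + 2) → ℂ) → Fin N → ℂ,
    ∀ a α v, x a α v = fun j => eval v (red U f (sg F d (φ a α)) j) := ⟨_, fun _ _ _ => rfl⟩
  have xm : ∀ a α v, x a α v ∈ WW F U f v := fun a α v => hx a α v ▸ mem_WW F U f _ d 1 v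
  have xi : ∀ v, eval (pt U v) δ ≠ 0 → ∀ a ≤ d, LinearIndependent ℂ fun α => x a α v := by
    intro v hv a ha
    have li : ∀ {u u' : Fin (q a) → Option (Fin N) → ℂ}, LinearIndependent ℂ u →
        (∀ α o, u α o = u' α o) → LinearIndependent ℂ u' := fun {u u'} h e =>
      (_root_.funext fun α => _root_.funext (e α) : u = u') ▸ h
    refine LinearIndependent.of_comp (LinearMap.pi fun o : Option (Fin N) => o.elim 0 fun j =>
      eval (fun l => U l 0) (F none) • LinearMap.proj j) (li (hi _ hv a ha) fun α o => ?_)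
    have c0 : ∀ j, eval (pt U v) ((LL (F j)).coeff 0) = eval (fun l => U l 0) (F j) :=
      fun j => jt_zero F U v j
    rw [map_sub, map_mul, map_mul, c0, c0]
    cases o with
    | none => simp
    | some j =>
      simp only [Function.comp_apply, LinearMap.pi_apply, Option.elim, LinearMap.smul_apply,
        LinearMap.proj_apply, hx, eval_red, hf, smul_eq_mul, rd, LinearMap.coe_mk, AddHom.coe_mk]
      ring
  let L : (Fin N → ℂ) →ₗ[ℂ] ℂ := Fintype.linearCombination ℂ (star f)
  have hL : ∀ y, L y = y ⬝ᵥ star f := fun y => by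
    simp [L, Fintype.linearCombination_apply, dotProduct]
  have hN1 : finrank ℂ (LinearMap.ker L) + 1 ≤ N := by
    have a1 := L.finrank_range_add_finrank_ker
    have a2 : LinearMap.range L ≠ ⊥ := fun h => by
      have : L f ∈ LinearMap.range L := ⟨f, rfl⟩
      rw [h, Submodule.mem_bot, hL, h1] at this
      exact one_ne_zero this
    have a3 : finrank ℂ (LinearMap.range L) ≠ 0 := fun h => a2 (Submodule.finrank_eq_zero.1 h)
    rw [finrank_fin_fun] at a1
    omega
  obtain ⟨A, hA⟩ : ∃ A, A = (LinearMap.ker L).map (hat F U f) := ⟨_, rfl⟩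
  have : Module.Finite ℂ A := hA ▸ inferInstance
  have hm : ∀ v, ∀ y ∈ WW F U f v, hat F U f y ∈ A := fun v y hy =>
    hA ▸ Submodule.mem_map_of_mem (LinearMap.mem_ker.2 ((hL y).trans (h2 v y hy)))
  obtain ⟨c, ⟨c1, c2⟩, hc⟩ := stepA A (fun c => eval (pt U (Fin.cons 1 c)) δ ≠ 0 ∧
    (k + 1) * q 0 ≤ finrank ℂ (A.map (ax.comp ((cf 0).comp (sb c).toLinearMap)))) ⟨0, by
      rw [show (Fin.cons 1 0 : Fin (k + 2) → ℂ) = Pi.single 0 1 from funext fun i => by
        refine Fin.cases ?_ (fun u => ?_) i <;> simp]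
      exact hδ 0, by
      have a1 := card_le (A.map (ax.comp ((cf 0).comp (sb 0).toLinearMap)))
        (v := fun p : Fin (k + 1) × Fin (q 0) => ax.comp ((cf 0).comp (sb 0).toLinearMap)
          (hat F U f (x 0 p.2 (Pi.single p.1.succ 1))))
        (fun p => Submodule.mem_map_of_mem (hm _ _ (xm _ _ _))) (by
        refine Fintype.linearIndependent_iff.2 fun b hb => ?_
        obtain ⟨w, hw⟩ : ∃ w : Fin (k + 1) → Fin N → ℂ, ∀ u, w u =
          ∑ α, b (u, α) • x 0 α (Pi.single u.succ 1) := ⟨_, fun _ => rfl⟩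
        have wm : ∀ u, w u ∈ WW F U f (Pi.single u.succ 1) := fun u =>
          hw u ▸ Submodule.sum_mem _ fun α _ => Submodule.smul_mem _ _ (xm _ _ _)
        simp only [← map_smul, ← map_sum, Fintype.sum_prod_type, ← hw] at hb
        rintro ⟨u, α⟩
        have a2 := perp F U f (x := ∑ u, w u) (v := Pi.single u.succ 1) (fun t => by
          rw [show star (t • Pi.single u.succ 1 : Fin (k + 2) → ℂ) = Pi.single u.succ (star t) from
            funext fun i => by by_cases e : i = u.succ <;> simp [e], ← ev_ax]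
          have a3 : ax ((sb 0 (hat F U f (∑ u, w u))).coeff 0) = 0 := hb
          rw [a3]
          simp) _ (wm u)
        rw [star_sum, dotProduct_sum, Finset.sum_eq_single u (fun u' _ h =>
          h3 _ _ (by simp [h.symm]) _ (wm u) _ (wm u')) (by simp)] at a2
        exact Fintype.linearIndependent_iff.1 (xi _ (hδ _) 0 (Nat.zero_le d)) (fun α => b (u, α))
          ((hw u).symm.trans (dotProduct_self_star_eq_zero.1 a2)) α)
      simpa using a1⟩ (fun c u hc => by
      have a1 : Continuous fun ε : ℂ => eval (pt U (Fin.cons 1 (c + ε • Pi.single u 1))) δ := by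
        simp only [← eval_ps]
        refine (continuous_eval _).comp (continuous_pi fun i => ?_)
        refine Fin.cases ?_ (fun w => ?_) i
        · simpa using continuous_const
        · simp only [Fin.cons_succ]
          fun_prop
      have a2 := rank_le A (fun ε => ax.comp ((cf 0).comp (sb (c + ε • Pi.single u 1)).toLinearMap))
        fun v => (pol_sb c u v).map (ax.comp (cf 0))
      rw [zero_smul, add_zero] at a2
      refine (a1.continuousAt.eventually_ne (by simpa using hc.1)).and ?_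
      filter_upwards [a2] with ε hε
      exact hc.2.trans hε)
  have key := count A c hc (e := e) (d := d) (M := d) (N := N - 1)
    (q := fun a => if a ≤ d then q a else 0) (by simpa using c2) (fun a => by
      split_ifs with ha
      swap
      · exact Nat.zero_le _
      have a1 := card_le (lev A c (a + 1)) (v := fun α => hat F U f (x a α (Fin.cons 1 c)))
        (fun α => mem_lev.2 ⟨hm _ _ (xm _ _ _), by
          have a2 := map_dvd (aeval (Sum.elim (fun i => C ((Fin.cons 1 c : Fin (k + 2) → ℂ) i)) X :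
            Fin (k + 2) ⊕ Fin (k + 2) → PP (k + 2))) (order F U f hF hf h3 a _ (hk a α))
          rw [spec_bil, map_pow, ← hx, show aeval (Sum.elim (fun i =>
            C ((Fin.cons 1 c : Fin (k + 2) → ℂ) i)) X : Fin (k + 2) ⊕ Fin (k + 2) → PP (k + 2))
            (JJ (Fin (k + 2))) = ell c by simp [JJ, ell, Fin.sum_univ_succ (n := k + 1)]] at a2
          have a3 := map_dvd (sb c) a2
          rw [map_pow, sb_ell] at a3
          exact Polynomial.X_pow_dvd_iff.1 a3⟩) (by
        refine Fintype.linearIndependent_iff.2 fun b hb => ?_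
        simp only [← map_smul, ← map_sum] at hb
        have a2 : ∑ α, b α • x a α (Fin.cons 1 c) ∈ WW F U f (Fin.cons 1 c) :=
          Submodule.sum_mem _ fun α _ => Submodule.smul_mem _ _ (xm _ _ _)
        exact Fintype.linearIndependent_iff.1 (xi _ c1 a ha) b (dotProduct_self_star_eq_zero.1
          (perp F U f (fun t => by rw [hb, map_zero]) _ a2)))
      simpa using a1)
    (hd.trans (Finset.sum_le_sum fun a ha => by
      rw [if_pos (Nat.lt_succ_iff.1 (Finset.mem_range.1 ha))]))
    (by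
      have a1 : finrank ℂ A ≤ finrank ℂ (LinearMap.ker L) := hA ▸ Submodule.finrank_map_le _ _
      omega) (by omega) he hke
  omega

theorem degree_bound {n d s : ℕ} (hs : 3 ≤ s) (hn : 2 * s * (s - 1) + 2 ≤ n)
    {f : (Fin n → ℂ) → (Fin N → ℂ)} (hf : IsProperHol f)
    (hd : IsLeast {e : ℕ | RatDegLE f e} d) (hN : N ≤ (n + s - 2).choose s + 1) :
    d * (n - 1) + 1 ≤ N := by
  obtain ⟨e, rfl⟩ : ∃ e, s = e + 2 := ⟨s - 2, by omega⟩
  rw [show e + 2 - 1 = e + 1 by omega] at hn
  obtain ⟨k, rfl⟩ : ∃ k, n = k + 2 + 1 := ⟨n - 3, by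
    have : 1 ≤ 2 * (e + 2) * (e + 1) := Nat.succ_le_of_lt (by positivity)
    omega⟩
  obtain ⟨d, rfl⟩ : ∃ e, d = e + 1 := Nat.exists_eq_succ_of_ne_zero fun h =>
    deg_pos (by omega) hf (h ▸ hd.1)
  obtain ⟨P, q, hP, hq, h⟩ := hd.1
  have hlt : ¬ RatDegLE f d := fun h => Nat.not_succ_le_self d (hd.2 h)
  let F : Option (Fin N) → MvPolynomial (Fin (k + 2 + 1)) ℂ := fun o => o.elim q P
  have hR : ∀ z w, z ⬝ᵥ star w = 1 → (fun j => eval z (F (some j))) ⬝ᵥ
      star (fun j => eval w (F (some j))) = eval z (F none) * star (eval w (F none)) := fun z w e => by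
    have := polar hP hq (by omega) (boundary_RR hf h) z (star w)
    rw [e, sub_self, zero_mul, RR_star] at this
    exact (sub_eq_zero.1 this.symm).symm
  have q0 : (LL (F none)).coeff 0 ≠ 0 := fun e => (h 0 (zero_mem_unitBall _)).1 (by
    have := LL_eval 0 0 0 q
    rw [← Polynomial.coeff_zero_eq_eval_zero, Polynomial.coeff_map, show (LL q).coeff 0 = 0 from e,
      map_zero, smul_zero, add_zero] at this
    exact this.symm)
  have hF : ∀ j, (F j).totalDegree ≤ d + 1 := fun j => by cases j; exacts [hq, hP _]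
  obtain ⟨r, φ, δ, hδ, r1, r2, r3⟩ := H19.rel_chain F hF (by
      by_contra hc
      push Not at hc
      exact hlt ⟨P, q, fun j => top_LL (hP j) (hc (some j)), top_LL hq (hc none), h⟩)
    (fun g hg => by
      by_contra hu
      choose F' hF' using hg
      have b : ∀ z ∈ unitBall _, eval z g ≠ 0 ∧ eval z (F' none) ≠ 0 := fun z hz => by
        rw [← mul_ne_zero_iff, ← map_mul, ← hF']; exact (h z hz).1
      have g0 : g ≠ 0 := fun e => (b 0 (zero_mem_unitBall _)).1 (by rw [e, map_zero])
      have g1 : g.totalDegree ≠ 0 := fun e => hu (by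
        rw [totalDegree_eq_zero_iff_eq_C.1 e] at g0 ⊢
        exact (IsUnit.mk0 _ fun e => g0 (by rw [e, C_0])).map C)
      have g2 : ∀ j, (F' j).totalDegree ≤ d := fun j => by
        rcases eq_or_ne (F' j) 0 with e | e
        · simp [e]
        · have := hF j
          rw [hF', totalDegree_mul_of_isDomain g0 e] at this
          omega
      refine hlt ⟨fun j => F' (some j), F' none, fun j => g2 _, g2 _, fun z hz =>
        ⟨(b z hz).2, fun j => ?_⟩⟩
      rw [(h z hz).2, show P j = _ from hF' (some j), show q = _ from hF' none, map_mul, map_mul,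
        mul_div_mul_left _ _ (b z hz).1]) none q0
  obtain ⟨U, a, b⟩ := exists_frame (mul_ne_zero hδ q0)
  simp only [map_mul, mul_ne_zero_iff] at b
  have c : eval (fun l => U l 0) (F none) ≠ 0 := jt_zero F U _ none ▸ (b 0).2
  have a3 : ∀ j, eval (fun l => U l 0) (F (some j)) = eval (fun l => U l 0) (F none) *
      (fun j => eval (fun l => U l 0) (F (some j)) / eval (fun l => U l 0) (F none)) j :=
    fun j => (mul_div_cancel₀ _ c).symm
  obtain ⟨b1, b2, b3⟩ := orth hR a c a3
  refine caseC (e := e) hF a3 b1 b2 b3 φ r1 r2 r3 (fun i => (b i).1) ?_ (by omega) (by nlinarith)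
  rwa [show k + 2 + 1 + (e + 2) - 2 = k + 3 + e by omega] at hN

end Pool.Agent.MP_eddcad_an.h49

end
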