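import Mathlib

/-! Filtration of a space of polynomials by powers of a linear form of maximal rank. -/

set_option autoImplicit false

noncomputable section

namespace Pool.Agent.MP_eddcad_an.h49

open MvPolynomial Module Filter Topology

section Semi

variable {V W : Type} [AddCommGroup V] [Module ℂ V] [AddCommGroup W] [Module ℂ W]

/-- weakly continuous curves -/
def Pol (w : ℂ → W) : Prop := ∀ l : W →ₗ[ℂ] ℂ, Continuous fun ε => l (w ε)

theorem pol_const (x : W) : Pol fun _ => x := fun _ => continuous_const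

theorem Pol.add {w w' : ℂ → W} (h : Pol w) (h' : Pol w') : Pol fun ε => w ε + w' ε := fun l => by
  simp only [map_add]
  exact (h l).add (h' l)

theorem Pol.smul {w : ℂ → W} (h : Pol w) : Pol fun ε => ε • w ε := fun l => by
  simp only [map_smul, smul_eq_mul]
  exact continuous_id.mul (h l)

theorem Pol.map {w : ℂ → V} (h : Pol w) (T : V →ₗ[ℂ] W) : Pol fun ε => T (w ε) :=
  fun l => h (l.comp T)

theorem li_eventually {ι : Type} [Fintype ι] {w : ι → ℂ → W} (h : ∀ j, Pol (w j))
    (h0 : LinearIndependent ℂ fun j => w j 0) :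
    ∀ᶠ ε in 𝓝 (0 : ℂ), LinearIndependent ℂ fun j => w j ε := by
  classical
  obtain ⟨π, hπ⟩ := (Fintype.linearCombination ℂ fun j => w j 0).exists_leftInverse_of_injective
    (LinearMap.ker_eq_bot'.2 fun a ha => funext (Fintype.linearIndependent_iff.1 h0 a
      (by simpa [Fintype.linearCombination_apply] using ha)))
  have hc : Continuous fun ε j => π (w j ε) :=
    continuous_pi fun j => continuous_pi fun i => h j ((LinearMap.proj i).comp π)
  have h1 : LinearIndependent ℂ fun j => π (w j 0) := by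
    have e : (fun j => π (w j 0)) = fun j => Pi.single j (1 : ℂ) := funext fun j => by
      simpa using LinearMap.congr_fun hπ (Pi.single j 1)
    rw [e]
    exact Pi.linearIndependent_single_one ι ℂ
  filter_upwards [(hc.tendsto 0).eventually h1.eventually] with ε hε
  exact LinearIndependent.of_comp π hε

theorem card_le {ι : Type} [Fintype ι] (p : Submodule ℂ W) [Module.Finite ℂ p] {v : ι → W}
    (hm : ∀ j, v j ∈ p) (h : LinearIndependent ℂ v) : Fintype.card ι ≤ finrank ℂ p :=
  (LinearIndependent.of_comp p.subtype (v := fun j => (⟨v j, hm j⟩ : p)) h).fintype_card_le_finrank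

theorem exists_fam {K V W : Type} [Field K] [AddCommGroup V] [Module K V] [AddCommGroup W]
    [Module K W] (A : Submodule K V) [Module.Finite K A] (T : V →ₗ[K] W) :
    ∃ v : Fin (finrank K (A.map T)) → V, (∀ j, v j ∈ A) ∧ LinearIndependent K fun j => T (v j) := by
  let b := Module.finBasis K (A.map T)
  choose v hv hv' using fun j => (b j).2
  refine ⟨v, hv, ?_⟩
  simp only [hv']
  exact b.linearIndependent.map' _ (Submodule.ker_subtype _)

theorem fin_map_add {K V W : Type} [Field K] [AddCommGroup V] [Module K V] [AddCommGroup W]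
    [Module K W] (A : Submodule K V) [Module.Finite K A] (T : V →ₗ[K] W) :
    finrank K (A.map T) + finrank K (A ⊓ LinearMap.ker T : Submodule K V) = finrank K A := by
  rw [← (T.domRestrict A).finrank_range_add_finrank_ker, LinearMap.range_domRestrict,
    LinearMap.ker_domRestrict, ← Submodule.finrank_map_subtype_eq A, Submodule.map_comap_subtype]

theorem rank_le (A : Submodule ℂ V) [Module.Finite ℂ A] (T : ℂ → V →ₗ[ℂ] W)
    (h : ∀ v, Pol fun ε => T ε v) :
    ∀ᶠ ε in 𝓝 (0 : ℂ), finrank ℂ (A.map (T 0)) ≤ finrank ℂ (A.map (T ε)) := by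
  obtain ⟨v, h1, h2⟩ := exists_fam A (T 0)
  filter_upwards [li_eventually (w := fun j ε => T ε (v j)) (fun j => h _) h2] with ε hε
  simpa using card_le (A.map (T ε)) (fun j => Submodule.mem_map_of_mem (h1 j)) hε

theorem rank_lt (A : Submodule ℂ V) [Module.Finite ℂ A] (T : ℂ → V →ₗ[ℂ] W)
    (h : ∀ v, Pol fun ε => T ε v) {f : V} (hf : f ∈ A) {w : ℂ → W} (hw : Pol w)
    (e : ∀ ε, T ε f = ε • w ε) (hn : w 0 ∉ A.map (T 0)) :
    ∀ᶠ ε in 𝓝[≠] (0 : ℂ), finrank ℂ (A.map (T 0)) < finrank ℂ (A.map (T ε)) := by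
  obtain ⟨v, h1, h2⟩ := exists_fam A (T 0)
  have h3 := li_eventually (w := fun (o : Option (Fin (finrank ℂ (A.map (T 0))))) ε =>
      o.elim (w ε) fun j => T ε (v j)) (by
      rintro (_ | j)
      · exact hw
      · exact h _) (linearIndependent_option.2 ⟨h2, fun hm => hn (by
      refine (Submodule.span_le.2 ?_) hm
      rintro _ ⟨j, rfl⟩
      exact Submodule.mem_map_of_mem (h1 j))⟩)
  filter_upwards [nhdsWithin_le_nhds h3, self_mem_nhdsWithin] with ε hε hε0
  refine lt_of_lt_of_le (by simp) (card_le (A.map (T ε)) ?_ hε)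
  rintro (_ | j)
  · refine ⟨ε⁻¹ • f, A.smul_mem _ hf, ?_⟩
    rw [map_smul, e, smul_smul, inv_mul_cancel₀ hε0, one_smul]
    rfl
  · exact Submodule.mem_map_of_mem (h1 j)

end Semi

variable {k : ℕ}

/-- polynomials in `k` variables -/
abbrev PP (k : ℕ) : Type := MvPolynomial (Fin k) ℂ

/-- expansion in powers of the linear form `y 0 + ∑ c u * y (u + 1)` -/
def sb (c : Fin k → ℂ) : PP (k + 1) →ₐ[ℂ] Polynomial (PP k) :=
  aeval (Fin.cons (Polynomial.X - Polynomial.C (∑ u, C (c u) * X u)) fun u => Polynomial.C (X u))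

theorem sb_zero (c : Fin k → ℂ) :
    sb c (X 0) = Polynomial.X - Polynomial.C (∑ u, C (c u) * X u) := by simp [sb]

theorem sb_succ (c : Fin k → ℂ) (u : Fin k) : sb c (X u.succ) = Polynomial.C (X u) := by simp [sb]

theorem sb_C (c : Fin k → ℂ) (a : ℂ) : sb c (C a) = Polynomial.C (C a) := by
  rw [← algebraMap_eq, AlgHom.commutes]; rfl

/-- the linear form -/
def ell (c : Fin k → ℂ) : PP (k + 1) := X 0 + ∑ u, C (c u) * X u.succ

theorem sb_ell (c : Fin k → ℂ) : sb c (ell c) = Polynomial.X := by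
  simp [ell, sb_zero, sb_succ, sb_C]

theorem sb_injective (c : Fin k → ℂ) : Function.Injective (sb c) := by
  have h : ∀ f, (sb c f).eval₂ (rename Fin.succ : PP k →ₐ[ℂ] PP (k + 1)) (ell c) = f := by
    intro f
    induction f using MvPolynomial.induction_on with
    | C a => simp [sb_C]
    | add p q hp hq => rw [map_add, Polynomial.eval₂_add, hp, hq]
    | mul_X p i h =>
      rw [map_mul, Polynomial.eval₂_mul, h]
      congr 1
      refine Fin.cases ?_ (fun u => ?_) i
      · simp [sb_zero, ell, Polynomial.eval₂_sub, Polynomial.eval₂_finsetSum]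
      · simp [sb_succ]
  exact fun f g e => by rw [← h f, e, h]

theorem natDegree_sb (c : Fin k → ℂ) (g : PP (k + 1)) : (sb c g).natDegree ≤ g.totalDegree := by
  have := aeval_natDegree_le (map (algebraMap ℂ (PP k)) g) (m := g.totalDegree) (n := 1)
    (Finset.sup_mono (support_map_subset _ _))
    (Fin.cons (Polynomial.X - Polynomial.C (∑ u, C (c u) * X u)) fun u => Polynomial.C (X u))
    fun i => by
      refine Fin.cases ?_ (fun u => ?_) i
      · simp only [Fin.cons_zero]
        compute_degree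
      · simp
  rwa [aeval_map_algebraMap, mul_one] at this

theorem sb_move (c : Fin k → ℂ) (u : Fin k) (f : PP (k + 1)) : ∃ w : ℂ → Polynomial (PP k),
    Pol w ∧ w 0 = -(Polynomial.C (X u) * Polynomial.derivative (sb c f)) ∧
    ∀ ε : ℂ, sb (c + ε • Pi.single u 1) f = sb c f + ε • w ε := by
  classical
  induction f using MvPolynomial.induction_on with
  | C a => exact ⟨fun _ => 0, pol_const _, by simp [sb_C], fun ε => by simp [sb_C]⟩
  | add p q hp hq =>
    obtain ⟨w, h1, h2, h3⟩ := hp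
    obtain ⟨w', h1', h2', h3'⟩ := hq
    refine ⟨fun ε => w ε + w' ε, h1.add h1', ?_, fun ε => ?_⟩
    · simp only [h2, h2', map_add]; ring
    · simp only [map_add, h3, h3', smul_add]; ring
  | mul_X p i h =>
    obtain ⟨w, h1, h2, h3⟩ := h
    have e : ∀ ε : ℂ, sb (c + ε • Pi.single u 1) (X i) =
        sb c (X i) + ε • -(Polynomial.C (X u) * Polynomial.derivative (sb c (X i))) := by
      intro ε
      refine Fin.cases ?_ (fun u' => ?_) i
      · have e1 : (∑ u', C ((c + ε • Pi.single u 1 : Fin k → ℂ) u') * X u' : PP k) =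
            ∑ u', C (c u') * X u' + ε • X u := by
          simp only [Pi.add_apply, map_add, add_mul, Finset.sum_add_distrib, smul_eq_C_mul]
          congr 1
          rw [Finset.sum_eq_single u (fun u' _ h => by simp [h]) (by simp)]
          simp
        rw [sb_zero, sb_zero, e1, map_add, ← Polynomial.smul_C]
        simp only [Polynomial.derivative_sub, Polynomial.derivative_X, Polynomial.derivative_C,
          sub_zero, mul_one, smul_neg]
        ring
      · simp [sb_succ]
    obtain ⟨b, hb⟩ : ∃ b, b = -(Polynomial.C (X u) * Polynomial.derivative (sb c (X i))) :=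
      ⟨_, rfl⟩
    refine ⟨fun ε => sb c p * b + w ε * sb c (X i) + ε • (w ε * b),
      ((pol_const _).add (h1.map (LinearMap.mulRight ℂ _))).add
        (h1.map (LinearMap.mulRight ℂ b)).smul, ?_, fun ε => ?_⟩
    · simp only [h2, hb, map_mul, Polynomial.derivative_mul, zero_smul]
      ring
    · rw [map_mul, map_mul, h3, e, ← hb]
      simp only [Algebra.smul_def]
      ring

theorem pol_sb (c : Fin k → ℂ) (u : Fin k) (f : PP (k + 1)) :
    Pol fun ε : ℂ => sb (c + ε • Pi.single u 1) f := by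
  obtain ⟨w, h1, -, h3⟩ := sb_move c u f
  simp only [h3]
  exact (pol_const _).add h1.smul

/-- a coefficient -/
def cf (i : ℕ) : Polynomial (PP k) →ₗ[ℂ] PP k := (Polynomial.lcoeff (PP k) i).restrictScalars ℂ

/-- the first coefficients -/
def tr (i : ℕ) : Polynomial (PP k) →ₗ[ℂ] (Fin i → PP k) := LinearMap.pi fun j => cf j

/-- elements vanishing to order `i` -/
def lev (A : Submodule ℂ (PP (k + 1))) (c : Fin k → ℂ) (i : ℕ) : Submodule ℂ (PP (k + 1)) :=
  A ⊓ LinearMap.ker ((tr i).comp (sb c).toLinearMap)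

/-- leading coefficients of order `i` -/
def gr (A : Submodule ℂ (PP (k + 1))) (c : Fin k → ℂ) (i : ℕ) : Submodule ℂ (PP k) :=
  (lev A c i).map ((cf i).comp (sb c).toLinearMap)

theorem mem_lev {A : Submodule ℂ (PP (k + 1))} {c : Fin k → ℂ} {i : ℕ} {f : PP (k + 1)} :
    f ∈ lev A c i ↔ f ∈ A ∧ ∀ j < i, (sb c f).coeff j = 0 := by
  simp only [lev, Submodule.mem_inf, LinearMap.mem_ker, funext_iff]
  exact and_congr_right fun _ => ⟨fun h j hj => h ⟨j, hj⟩, fun h j => h j j.2⟩

theorem mem_gr {A : Submodule ℂ (PP (k + 1))} {c : Fin k → ℂ} {i : ℕ} {g : PP k} :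
    g ∈ gr A c i ↔ ∃ f, f ∈ lev A c i ∧ (sb c f).coeff i = g := Iff.rfl

instance (A : Submodule ℂ (PP (k + 1))) [Module.Finite ℂ A] (c : Fin k → ℂ) (i : ℕ) :
    Module.Finite ℂ (lev A c i) := Submodule.finiteDimensional_inf_left _ _

instance (A : Submodule ℂ (PP (k + 1))) [Module.Finite ℂ A] (c : Fin k → ℂ) (i : ℕ) :
    Module.Finite ℂ (gr A c i) := by
  unfold gr
  infer_instance

theorem lev_zero (A : Submodule ℂ (PP (k + 1))) (c : Fin k → ℂ) : lev A c 0 = A :=
  Submodule.ext fun f => by simp [mem_lev]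

theorem lev_succ (A : Submodule ℂ (PP (k + 1))) [Module.Finite ℂ A] (c : Fin k → ℂ) (i : ℕ) :
    finrank ℂ (lev A c i) = finrank ℂ (lev A c (i + 1)) + finrank ℂ (gr A c i) := by
  have e : lev A c (i + 1) = lev A c i ⊓ LinearMap.ker ((cf i).comp (sb c).toLinearMap) :=
    Submodule.ext fun f => by
      simp only [mem_lev, Submodule.mem_inf, LinearMap.mem_ker, Nat.lt_succ_iff_lt_or_eq]
      exact ⟨fun h => ⟨⟨h.1, fun j hj => h.2 j (Or.inl hj)⟩, h.2 i (Or.inr rfl)⟩,
        fun h => ⟨h.1.1, fun j hj => hj.elim (h.1.2 j) fun e => e ▸ h.2⟩⟩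
  rw [e, gr, ← fin_map_add (lev A c i) ((cf i).comp (sb c).toLinearMap)]
  exact Nat.add_comm _ _

theorem exists_deg (A : Submodule ℂ (PP k)) [Module.Finite ℂ A] :
    ∃ D, ∀ f ∈ A, f.totalDegree ≤ D := by
  obtain ⟨s, rfl⟩ := Module.Finite.iff_fg.1 (inferInstance : Module.Finite ℂ A)
  refine ⟨s.sup totalDegree, fun f hf => ?_⟩
  induction hf using Submodule.span_induction with
  | mem x hx => exact Finset.le_sup (f := totalDegree) hx
  | zero => simp
  | add x y _ _ hx hy => exact (totalDegree_add _ _).trans (max_le hx hy)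
  | smul a x _ hx => exact (totalDegree_smul_le _ _).trans hx

theorem lev_top (A : Submodule ℂ (PP (k + 1))) [Module.Finite ℂ A] (c : Fin k → ℂ) :
    ∃ D, finrank ℂ (lev A c D) = 0 := by
  obtain ⟨D, hD⟩ := exists_deg A
  refine ⟨D + 1, Submodule.finrank_eq_zero.2 ((Submodule.eq_bot_iff _).2 fun f hf => ?_)⟩
  obtain ⟨h1, h2⟩ := mem_lev.1 hf
  refine sb_injective c (Polynomial.ext fun j => ?_)
  rw [map_zero, Polynomial.coeff_zero]
  rcases lt_or_ge j (D + 1) with h | h
  · exact h2 j h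
  · exact Polynomial.coeff_eq_zero_of_natDegree_lt
      (((natDegree_sb c f).trans (hD f h1)).trans_lt h)

theorem stepA (A : Submodule ℂ (PP (k + 1))) [Module.Finite ℂ A] (Good : (Fin k → ℂ) → Prop)
    (h0 : ∃ c, Good c)
    (hG : ∀ c u, Good c → ∀ᶠ ε in 𝓝 (0 : ℂ), Good (c + ε • Pi.single u 1)) :
    ∃ c, Good c ∧ ∀ i u, ∀ g ∈ gr A c (i + 1), X u * g ∈ gr A c i := by
  classical
  obtain ⟨D, hD⟩ := exists_deg A
  let ρ : (Fin k → ℂ) → ℕ → ℕ := fun c i =>
    finrank ℂ (A.map ((tr i).comp (sb c).toLinearMap))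
  obtain ⟨c, hc, hmax⟩ : ∃ c, Good c ∧ ∀ c', Good c' →
      ∑ i ∈ Finset.range (D + 1), ρ c' i ≤ ∑ i ∈ Finset.range (D + 1), ρ c i := by
    have hb : BddAbove ((fun c => ∑ i ∈ Finset.range (D + 1), ρ c i) '' {c | Good c}) := by
      refine ⟨∑ i ∈ Finset.range (D + 1), finrank ℂ A, ?_⟩
      rintro _ ⟨c, -, rfl⟩
      exact Finset.sum_le_sum fun i _ => Submodule.finrank_map_le _ _
    obtain ⟨c, hc, e⟩ := Nat.sSup_mem (Set.Nonempty.image _ (h0.imp fun c hc => hc)) hb
    exact ⟨c, hc, fun c' hc' => (le_csSup hb ⟨c', hc', rfl⟩).trans e.ge⟩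
  refine ⟨c, hc, fun i u g hg => ?_⟩
  obtain ⟨f, hf, rfl⟩ := mem_gr.1 hg
  obtain ⟨h1, h2⟩ := mem_lev.1 hf
  rcases lt_or_ge D (i + 1) with hi | hi
  · rw [Polynomial.coeff_eq_zero_of_natDegree_lt
      (((natDegree_sb c f).trans (hD f h1)).trans_lt hi), mul_zero]
    exact Submodule.zero_mem _
  obtain ⟨w, w1, w2, w3⟩ := sb_move c u f
  let T : (j : ℕ) → ℂ → PP (k + 1) →ₗ[ℂ] (Fin j → PP k) := fun j ε =>
    (tr j).comp (sb (c + ε • Pi.single u 1)).toLinearMap
  have hT : ∀ j v, Pol fun ε => T j ε v := fun j v => (pol_sb c u v).map (tr j)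
  have hT0 : ∀ j, T j 0 = (tr j).comp (sb c).toLinearMap := fun j => by simp [T]
  have hm : tr (i + 1) (w 0) ∈ A.map (T (i + 1) 0) := by
    by_contra hn
    have a1 := rank_lt A (T (i + 1)) (hT _) h1 (w1.map (tr (i + 1))) (fun ε => by
      have e : tr (i + 1) (sb c f) = 0 := funext fun j => h2 j j.2
      show tr (i + 1) (sb _ f) = _
      rw [w3, map_add, e, zero_add, map_smul]) hn
    have a2 : ∀ᶠ ε in 𝓝 (0 : ℂ), ∀ j ∈ Finset.range (D + 1),
        finrank ℂ (A.map (T j 0)) ≤ finrank ℂ (A.map (T j ε)) :=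
      (eventually_all_finset _).2 fun j _ => rank_le A (T j) (hT j)
    obtain ⟨ε, b1, b2, b3⟩ :=
      (a1.and (nhdsWithin_le_nhds (a2.and (hG c u hc)))).exists
    have b4 : ∀ j, ρ c j = finrank ℂ (A.map (T j 0)) := fun j => by rw [hT0]
    exact (hmax _ b3).not_gt (Finset.sum_lt_sum (fun j hj => (b4 j).trans_le (b2 j hj))
      ⟨i + 1, Finset.mem_range.2 (by omega), (b4 _).trans_lt b1⟩)
  obtain ⟨f', m1, m2⟩ := hm
  have m3 : ∀ j : ℕ, j < i + 1 →
      (sb c f').coeff j = -(X u * ((sb c f).coeff (j + 1) * ((j : PP k) + 1))) := by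
    intro j hj
    rw [hT0, w2] at m2
    have h3 : (sb c f').coeff j =
      (-(Polynomial.C (X u) * Polynomial.derivative (sb c f))).coeff j := congrFun m2 ⟨j, hj⟩
    rw [h3, Polynomial.coeff_neg, Polynomial.coeff_C_mul, Polynomial.coeff_derivative]
  have hi0 : ((i : ℂ) + 1) ≠ 0 := Nat.cast_add_one_ne_zero i
  refine mem_gr.2 ⟨(-((i : ℂ) + 1)⁻¹) • f', Submodule.smul_mem _ _ (mem_lev.2 ⟨m1, fun j hj => ?_⟩), ?_⟩
  · rw [m3 j (by omega), h2 (j + 1) (by omega)]
    simp
  · rw [map_smul, Polynomial.coeff_smul, m3 i (by omega), smul_eq_C_mul]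
    have e : (C ((i : ℂ) + 1)⁻¹ : PP k) * ((i : PP k) + 1) = 1 := by
      rw [← map_natCast (C : ℂ →+* PP k), ← C_1, ← C_add, ← C_mul, inv_mul_cancel₀ hi0]
    rw [map_neg]
    linear_combination (X u * (sb c f).coeff (i + 1)) * e

end Pool.Agent.MP_eddcad_an.h49

end
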