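import Pool.Agent.MP_eddcad_an.h49.Filt

/-! Growth of spaces of polynomials under multiplication by the variables. -/

set_option autoImplicit false

noncomputable section

namespace Pool.Agent.MP_eddcad_an.h49

open MvPolynomial Module Filter Topology

/-- `y` is at least the growth of `x` in `k + 1` variables -/
def Gr (k x y : ℕ) : Prop := ∀ e, (x ≤ (k + e).choose e → (k + 1 + e) * x ≤ (e + 1) * y) ∧
  ((k + e).choose e ≤ x → (k + e + 1).choose (e + 1) ≤ y)

theorem Gr.mono {k x y y' : ℕ} (h : Gr k x y) (hy : y ≤ y') : Gr k x y' := fun e =>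
  ⟨fun h1 => ((h e).1 h1).trans (Nat.mul_le_mul_left _ hy), fun h1 => ((h e).2 h1).trans hy⟩

section Chain

variable {k D : ℕ} {b g : ℕ → ℕ}

theorem chainM (hb : ∀ i, b i = b (i + 1) + g i) (hD : b D = 0) (hg : ∀ i, Gr k (g (i + 1)) (g i))
    (e : ℕ) : ∀ i, (k + 1 + e).choose e ≤ b (i + 1) → (k + 1 + e).choose (e + 1) ≤ g i := by
  induction e with
  | zero =>
    intro i hi
    have h1 : ∀ j, 1 ≤ g (j + 1) → k + 1 ≤ g j := fun j hj => by
      simpa using (hg j 0).2 (by simpa using hj)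
    have h2 : g (i + 1) = 0 → ∀ m, g (i + 1 + m) = 0 ∧ b (i + 1) = b (i + 1 + m) := by
      intro h m
      induction m with
      | zero => exact ⟨h, rfl⟩
      | succ m ih =>
        have := h1 (i + 1 + m)
        have := hb (i + 1 + m)
        rw [← add_assoc]
        omega
    have h3 : ∀ m, b (D + m) = 0 := fun m => by
      induction m with
      | zero => exact hD
      | succ m ih =>
        have := hb (D + m)
        rw [← add_assoc]
        omega
    have h4 : 1 ≤ g (i + 1) := by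
      by_contra h
      have h5 := (h2 (by omega) D).2
      rw [add_comm (i + 1) D, h3] at h5
      simp [h5] at hi
    simpa using h1 i h4
  | succ e ih =>
    intro i hi
    have h1 : (k + 1 + e).choose (e + 1) ≤ g (i + 1) := by
      by_contra h
      rw [← add_assoc, Nat.choose_succ_succ, hb (i + 1)] at hi
      exact h (ih (i + 1) (by simp only [Nat.succ_eq_add_one] at hi; omega))
    have h2 := (hg i (e + 1)).2 (by rwa [show k + (e + 1) = k + 1 + e by ring])
    rwa [show k + (e + 1) + 1 = k + 1 + (e + 1) by ring] at h2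

theorem chainN (hb : ∀ i, b i = b (i + 1) + g i) (hD : b D = 0) (hg : ∀ i, Gr k (g (i + 1)) (g i))
    (e : ℕ) : ∀ i, b (i + 1) ≤ (k + 1 + e).choose e → (k + 1) * b (i + 1) ≤ (e + 1) * g i := by
  have key : ∀ e i, b (i + 1) ≤ (k + 1 + e).choose e → (k + 1) * b (i + 1 + 1) ≤ e * g (i + 1) →
      (k + 1) * b (i + 1) ≤ (e + 1) * g i := by
    intro e i h1 h2
    rcases le_total (g (i + 1)) ((k + e).choose e) with h | h
    · have h3 := (hg i e).1 h
      rw [hb (i + 1)]
      nlinarith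
    · have h3 := (hg i e).2 h
      have h4 := Nat.choose_succ_right_eq (k + e + 1) e
      rw [show k + e + 1 - e = k + 1 by omega] at h4
      rw [show k + 1 + e = k + e + 1 by ring] at h1
      nlinarith
  induction e with
  | zero =>
    intro i hi
    refine key 0 i hi ?_
    have h1 := chainM hb hD hg 0 (i + 1)
    have h2 := hb (i + 1)
    simp only [add_zero, Nat.choose_zero_right, zero_add, Nat.choose_one_right] at h1 hi
    have h3 : b (i + 1 + 1) = 0 := by omega
    simp [h3]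
  | succ e ih =>
    intro i hi
    refine key (e + 1) i hi (ih (i + 1) ?_)
    by_contra h
    have h1 := chainM hb hD hg e (i + 1) (by omega)
    rw [← add_assoc, Nat.choose_succ_succ, hb (i + 1)] at hi
    simp only [Nat.succ_eq_add_one] at hi
    omega

theorem chain_gr (hb : ∀ i, b i = b (i + 1) + g i) (hD : b D = 0)
    (hg : ∀ i, Gr k (g (i + 1)) (g i)) (i : ℕ) : Gr (k + 1) (b (i + 1)) (b i) := fun e => by
  refine ⟨fun h => ?_, fun h => ?_⟩
  · have h1 := chainN hb hD hg e i h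
    rw [hb i]
    nlinarith
  · have h1 := chainM hb hD hg e i h
    rw [Nat.choose_succ_succ, hb i]
    exact Nat.add_le_add h h1

theorem chain_cons (hb : ∀ i, b i = b (i + 1) + g i) (hD : b D = 0)
    (hg : ∀ i, Gr k (g (i + 1)) (g i)) {y : ℕ} (hy : Gr k (g 0) y) :
    ∃ b' g' : ℕ → ℕ, (∀ i, b' i = b' (i + 1) + g' i) ∧ b' (D + 1) = 0 ∧
      (∀ i, Gr k (g' (i + 1)) (g' i)) ∧ g' 0 = y ∧ (∀ i, b' (i + 1) = b i) ∧
      ∀ i, g' (i + 1) = g i :=
  ⟨fun i => Nat.casesOn i (b 0 + y) b, fun i => Nat.casesOn i y g,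
    fun i => by cases i; exacts [rfl, hb _], hD, fun i => by cases i; exacts [hy, hg _], rfl,
    fun _ => rfl, fun _ => rfl⟩

end Chain

variable {k : ℕ}

/-- the span of the products with the variables -/
def S1 (B : Submodule ℂ (PP k)) : Submodule ℂ (PP k) := ⨆ u, B.map (LinearMap.mulLeft ℂ (X u))

instance (B : Submodule ℂ (PP k)) [Module.Finite ℂ B] : Module.Finite ℂ (S1 B) := by
  unfold S1
  infer_instance

theorem mem_S1 {B : Submodule ℂ (PP k)} (u : Fin k) {g : PP k} (hg : g ∈ B) : X u * g ∈ S1 B :=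
  Submodule.mem_iSup_of_mem u ⟨g, hg, rfl⟩

theorem S1_le {B B' : Submodule ℂ (PP k)} (h : ∀ u, ∀ g ∈ B, X u * g ∈ B') : S1 B ≤ B' :=
  iSup_le fun u => by
    rintro _ ⟨g, hg, rfl⟩
    exact h u g hg

theorem finrank_mul_le {B B' : Submodule ℂ (PP k)} [Module.Finite ℂ B'] {a : PP k} (ha : a ≠ 0)
    (h : ∀ g ∈ B, a * g ∈ B') : finrank ℂ B ≤ finrank ℂ B' := by
  rw [(Submodule.equivMapOfInjective (LinearMap.mulLeft ℂ a)
    (mul_right_injective₀ ha) B).finrank_eq]
  refine Submodule.finrank_mono ?_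
  rintro _ ⟨g, hg, rfl⟩
  exact h g hg

theorem growth (k : ℕ) : ∀ (B : Submodule ℂ (PP (k + 1))) [Module.Finite ℂ B],
    Gr k (finrank ℂ B) (finrank ℂ (S1 B)) := by
  induction k with
  | zero =>
    intro B _ e
    have h := finrank_mul_le (X_ne_zero 0) fun g (hg : g ∈ B) => mem_S1 0 hg
    exact ⟨fun _ => by nlinarith, fun h1 => by simpa using (by simpa using h1 : 1 ≤ _).trans h⟩
  | succ k ih =>
    intro B _
    obtain ⟨c, -, hc⟩ := stepA B (fun _ => True) ⟨0, trivial⟩ fun _ _ _ => by simp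
    obtain ⟨D, hD⟩ := lev_top B c
    obtain ⟨b', g', h1, h2, h3, h4, h5, -⟩ := chain_cons (b := fun i => finrank ℂ (lev B c i))
      (g := fun i => finrank ℂ (gr B c i)) (lev_succ B c) hD
      (fun i => (ih _).mono (Submodule.finrank_mono (S1_le (hc i)))) (ih (gr B c 0))
    have h6 := chain_gr h1 h2 h3 0
    rw [h1 0, h4, h5, lev_zero] at h6
    refine h6.mono ?_
    have e := lev_succ (S1 B) c 0
    rw [lev_zero] at e
    rw [e]
    refine Nat.add_le_add (finrank_mul_le (a := ell c) (fun h => ?_) fun g hg => ?_)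
      (Submodule.finrank_mono (S1_le fun u g hg => ?_))
    · have := sb_ell c
      rw [h, map_zero] at this
      exact Polynomial.X_ne_zero this.symm
    · refine mem_lev.2 ⟨?_, fun j hj => ?_⟩
      · rw [ell, add_mul, Finset.sum_mul]
        refine Submodule.add_mem _ (mem_S1 _ hg) (Submodule.sum_mem _ fun u _ => ?_)
        rw [mul_assoc, ← smul_eq_C_mul]
        exact Submodule.smul_mem _ _ (mem_S1 _ hg)
      · rw [show j = 0 by omega, map_mul, sb_ell, Polynomial.coeff_X_mul_zero]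
    · obtain ⟨f, hf, rfl⟩ := mem_gr.1 hg
      refine mem_gr.2 ⟨X u.succ * f, ?_, ?_⟩
      · rw [lev_zero] at hf ⊢
        exact mem_S1 _ hf
      · rw [map_mul, sb_succ, Polynomial.coeff_C_mul]

/-- restriction to the coordinate axes -/
def ax : PP k →ₗ[ℂ] (Fin k → Polynomial ℂ) := LinearMap.pi fun u =>
  (aeval (fun w => if w = u then Polynomial.X else 0) : PP k →ₐ[ℂ] Polynomial ℂ).toLinearMap

theorem ax_apply (g : PP k) (u : Fin k) :
    ax g u = aeval (fun w => if w = u then (Polynomial.X : Polynomial ℂ) else 0) g := rfl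

theorem ax_S1_S1 (B : Submodule ℂ (PP k)) [Module.Finite ℂ B] :
    finrank ℂ ((S1 (S1 B)).map ax) ≤ k * finrank ℂ B := by
  classical
  let Ψ : (Fin k → B) →ₗ[ℂ] (Fin k → Polynomial ℂ) := LinearMap.pi fun u =>
    (LinearMap.mulLeft ℂ (Polynomial.X * Polynomial.X)).comp ((LinearMap.proj u).comp
      (ax.comp (B.subtype.comp (LinearMap.proj u))))
  have h : (S1 (S1 B)).map ax ≤ LinearMap.range Ψ := by
    rw [Submodule.map_le_iff_le_comap]
    refine S1_le fun a g hg => ?_
    have h1 : S1 B ≤ ((LinearMap.range Ψ).comap ax).comap (LinearMap.mulLeft ℂ (X a)) := by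
      refine S1_le fun a' g hg => ⟨fun u => if a = u ∧ a' = u then ⟨g, hg⟩ else 0, ?_⟩
      funext u
      by_cases e : a = u <;> by_cases e' : a' = u <;> simp [Ψ, ax_apply, e, e', mul_assoc]
    exact h1 hg
  refine (Submodule.finrank_mono h).trans (Ψ.finrank_range_le.trans ?_)
  simp [finrank_pi_fintype]

theorem count_num {k e D d M N : ℕ} {b g q : ℕ → ℕ} {s1 s2 : ℕ}
    (hb : ∀ i, b i = b (i + 1) + g i) (hD : b D = 0) (hg : ∀ i, Gr k (g (i + 1)) (g i))
    (h1 : Gr k (g 2) s1) (h2 : Gr k s1 s2) (h3 : s1 ≤ g 1)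
    (h4 : (k + 1) * q 0 + s2 ≤ g 0 + (k + 1) * g 2) (hq : ∀ i, q i ≤ b (i + 1))
    (hd : d ≤ ∑ i ∈ Finset.range (M + 1), q i) (hN : b 0 ≤ N) (hN' : N ≤ (k + 3 + e).choose (e + 2))
    (he : 1 ≤ e) (hk : 2 * ((e + 1) * (e + 2)) ≤ k + 1) : d * (k + 2) ≤ N := by
  have b1 : b 1 ≤ (k + 1 + (e + 1)).choose (e + 1) := by
    by_contra h
    have a1 := chainM hb hD hg (e + 1) 0 (by simp only [zero_add]; omega)
    rw [show k + 3 + e = k + 1 + (e + 1) + 1 by ring, Nat.choose_succ_succ] at hN'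
    have := hb 0
    simp only [Nat.succ_eq_add_one, zero_add] at hN' this
    omega
  have b2 : b 2 ≤ (k + 1 + e).choose e := by
    by_contra h
    have a1 := chainM hb hD hg e 1 (by simp only [Nat.reduceAdd]; omega)
    rw [← add_assoc, Nat.choose_succ_succ] at b1
    have := hb 1
    simp only [Nat.succ_eq_add_one, Nat.reduceAdd] at b1 this
    omega
  have b3 : ∀ m, b (2 + m) ≤ b 2 := fun m => by
    induction m with
    | zero => exact le_rfl
    | succ m ih =>
      have := hb (2 + m)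
      rw [← add_assoc]
      omega
  obtain ⟨b', g', c1, c2, c3, c4, c5, c6⟩ := chain_cons (b := fun i => b (2 + i))
    (g := fun i => g (2 + i)) (D := D) (fun i => hb (2 + i)) (by
      have h5 : ∀ m, b (D + m) = 0 := fun m => by
        induction m with
        | zero => exact hD
        | succ m ih =>
          have := hb (D + m)
          rw [← add_assoc]
          omega
      rw [add_comm]
      exact h5 2) (fun i => hg (2 + i)) h1
  obtain ⟨b'', g'', d1, d2, d3, d4, d5, d6⟩ := chain_cons c1 c2 c3 (c4 ▸ h2)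
  have e1 : (k + 1) * b 2 ≤ (e + 1) * s1 := by
    have := chainN c1 c2 c3 e 0 (by rw [c5]; exact b2)
    rwa [c5, c4] at this
  have e2 : (k + 1) * (b 2 + s1) ≤ (e + 2) * s2 := by
    have a1 : b' 0 = b 2 + s1 := by rw [c1, c5, c4]
    have a2 := hb 1
    have := chainN d1 d2 d3 (e + 1) 0 (by rw [d5, a1]; simp only [Nat.reduceAdd] at a2; omega)
    rwa [d5, d4, a1] at this
  have e3 : ∀ m, (k + 1) * ∑ i ∈ Finset.range m, b (2 + i) + (e + 1) * b (2 + m) ≤
      (k + 1) * b 2 + (e + 1) * b 2 := fun m => by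
    have a : ∀ m, (k + 1) * ∑ i ∈ Finset.range (m + 1), b (2 + i) + (e + 1) * b (2 + m) ≤
        (k + 1) * b 2 + (e + 1) * b 2 := fun m => by
      induction m with
      | zero => simp
      | succ m ih =>
        have a1 := chainN hb hD hg e (2 + m) ((b3 (m + 1)).trans b2)
        have a2 := hb (2 + m)
        rw [Finset.sum_range_succ, ← add_assoc, mul_add]
        nlinarith
    refine le_trans ?_ (a m)
    rw [Finset.sum_range_succ, mul_add]
    omega
  have e4 : d ≤ q 0 + ∑ i ∈ Finset.range M, b (2 + i) := by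
    rw [Finset.sum_range_succ', add_comm] at hd
    refine hd.trans (Nat.add_le_add_left (Finset.sum_le_sum fun i _ => ?_) _)
    rw [add_comm 2 i]
    exact hq (i + 1)
  obtain ⟨T, hT⟩ : ∃ T, T = ∑ i ∈ Finset.range M, b (2 + i) := ⟨_, rfl⟩
  have e5 : (k + 1) * T ≤ (k + e + 2) * b 2 := by
    have := e3 M
    rw [← hT] at this
    nlinarith [Nat.zero_le ((e + 1) * b (2 + M))]
  rw [← hT] at e4
  have e6 : 2 * (k + e + 2) * b 2 ≤ s2 := by
    refine Nat.le_of_mul_le_mul_left (c := (e + 1) * (e + 2)) ?_ (by positivity)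
    calc (e + 1) * (e + 2) * (2 * (k + e + 2) * b 2)
        = 2 * ((e + 1) * (e + 2)) * ((k + e + 2) * b 2) := by ring
      _ ≤ (k + 1) * ((k + e + 2) * b 2) := Nat.mul_le_mul_right _ hk
      _ = (k + 1) * ((e + 1) * b 2 + (k + 1) * b 2) := by ring
      _ ≤ (k + 1) * ((e + 1) * b 2 + (e + 1) * s1) :=
          Nat.mul_le_mul_left _ (Nat.add_le_add_left e1 _)
      _ = (e + 1) * ((k + 1) * (b 2 + s1)) := by ring
      _ ≤ (e + 1) * ((e + 2) * s2) := Nat.mul_le_mul_left _ e2
      _ = (e + 1) * (e + 2) * s2 := by ring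
  have e7 : (k + 2) * T ≤ (k + 2 * e + 3) * b 2 := by
    refine Nat.le_of_mul_le_mul_left (c := k + 1) ?_ (by positivity)
    calc (k + 1) * ((k + 2) * T) = (k + 2) * ((k + 1) * T) := by ring
      _ ≤ (k + 2) * ((k + e + 2) * b 2) := Nat.mul_le_mul_left _ e5
      _ = (k + 2) * (k + e + 2) * b 2 := by ring
      _ ≤ (k + 1) * (k + 2 * e + 3) * b 2 := Nat.mul_le_mul_right _ (by nlinarith)
      _ = (k + 1) * ((k + 2 * e + 3) * b 2) := by ring
  have e8 : g 2 ≤ b 2 := by have := hb 2; omega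
  have e9 := hb 0
  have e10 := hq 0
  simp only [zero_add] at e9 e10
  nlinarith

theorem count (A : Submodule ℂ (PP (k + 2))) [Module.Finite ℂ A] (c : Fin (k + 1) → ℂ)
    (hc : ∀ i u, ∀ g ∈ gr A c (i + 1), X u * g ∈ gr A c i) {e d M N : ℕ} {q : ℕ → ℕ}
    (h0 : (k + 1) * q 0 ≤ finrank ℂ (A.map (ax.comp ((cf 0).comp (sb c).toLinearMap))))
    (hq : ∀ i, q i ≤ finrank ℂ (lev A c (i + 1)))
    (hd : d ≤ ∑ i ∈ Finset.range (M + 1), q i) (hN : finrank ℂ A ≤ N)
    (hN' : N ≤ (k + 3 + e).choose (e + 2)) (he : 1 ≤ e)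
    (hk : 2 * ((e + 1) * (e + 2)) ≤ k + 1) : d * (k + 2) ≤ N := by
  obtain ⟨D, hD⟩ := lev_top A c
  have a1 : S1 (gr A c 2) ≤ gr A c 1 := S1_le (hc 1)
  have a2 : S1 (S1 (gr A c 2)) ≤ gr A c 0 := S1_le fun u g hg => hc 0 u g (a1 hg)
  refine count_num (b := fun i => finrank ℂ (lev A c i)) (g := fun i => finrank ℂ (gr A c i))
    (lev_succ A c) hD (fun i => (growth k _).mono (Submodule.finrank_mono (S1_le (hc i))))
    (growth k _) (growth k _) (Submodule.finrank_mono a1) ?_ hq hd (by rwa [lev_zero]) hN' he hk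
  have a3 := fin_map_add (gr A c 0) ax
  have a4 := fin_map_add (S1 (S1 (gr A c 2))) ax
  have a5 := ax_S1_S1 (gr A c 2)
  have a6 : finrank ℂ (S1 (S1 (gr A c 2)) ⊓ LinearMap.ker ax : Submodule ℂ (PP (k + 1))) ≤
      finrank ℂ (gr A c 0 ⊓ LinearMap.ker ax : Submodule ℂ (PP (k + 1))) :=
    Submodule.finrank_mono (inf_le_inf_right _ a2)
  have a7 : A.map (ax.comp ((cf 0).comp (sb c).toLinearMap)) = (gr A c 0).map ax := by
    rw [gr, lev_zero, Submodule.map_comp]
  rw [a7] at h0
  omega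

end Pool.Agent.MP_eddcad_an.h49

end
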