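import Pool.Agent.MP_eddcad_an.h52.Frame
import Pool.Agent.MP_eddcad_an.h49.Growth

/-! Orders of vanishing of the shifted relations and the dimension count in a frame. -/

set_option autoImplicit false

noncomputable section

namespace Pool.Agent.MP_eddcad_an.h49

open MvPolynomial Module Filter Topology Matrix H52
open scoped ComplexOrder

section Der

variable {σ : Type} (a b : σ) {c : ℕ → MvPolynomial σ ℂ} {d : ℕ}

theorem der_kill (h0 : pderiv b (c 0) = 0) (h1 : ∀ k, pderiv b (c (k + 1)) = pderiv a (c k)) (h2 : c (d + 1) = 0)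
    {φ : ℕ → MvPolynomial σ ℂ} {l : ℕ} (r0 : ∑ k ∈ Finset.range (d + 1), φ (k + l) * c k = 0)
    (r1 : ∑ k ∈ Finset.range (d + 1), φ (k + (l + 1)) * c k = 0) :
    ∑ k ∈ Finset.range (d + 1), (pderiv b (φ (k + l)) - pderiv a (φ (k + l + 1))) * c k = 0 := by
  have a0 := congrArg (pderiv b) r0
  have a1 := congrArg (pderiv a) r1
  simp only [map_sum, map_zero, Derivation.leibniz, smul_eq_mul, Finset.sum_add_distrib] at a0 a1
  rw [Finset.sum_range_succ' (fun k => φ (k + l) * pderiv b (c k)), h0, mul_zero, add_zero] at a0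
  rw [Finset.sum_range_succ (fun k => φ (k + (l + 1)) * pderiv a (c k)), ← h1 d, h2, map_zero, mul_zero,
    add_zero] at a1
  simp only [h1, show ∀ k, k + 1 + l = k + (l + 1) from fun k => by ring] at a0
  simp only [mul_comm _ (c _), mul_sub, Finset.sum_sub_distrib, add_assoc] at a0 a1 ⊢
  linear_combination a0 - a1

theorem der_shift (h1 : ∀ k, pderiv b (c (k + 1)) = pderiv a (c k)) (h2 : c (d + 1) = 0)
    {φ : ℕ → MvPolynomial σ ℂ} (r0 : ∑ k ∈ Finset.range (d + 1), φ k * c k = 0) :
    pderiv b (∑ k ∈ Finset.range d, φ k * c (k + 1)) =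
      ∑ k ∈ Finset.range d, (pderiv b (φ k) - pderiv a (φ (k + 1))) * c (k + 1) - pderiv a (φ 0) * c 0 := by
  have a1 := congrArg (pderiv a) r0
  simp only [map_sum, map_zero, Derivation.leibniz, smul_eq_mul, Finset.sum_add_distrib] at a1
  rw [Finset.sum_range_succ (fun k => φ k * pderiv a (c k)), ← h1 d, h2, map_zero, mul_zero, add_zero,
    Finset.sum_range_succ' (fun k => c k * pderiv a (φ k))] at a1
  simp only [map_sum, Derivation.leibniz, smul_eq_mul, Finset.sum_add_distrib, h1,
    mul_comm _ (c _), mul_sub, Finset.sum_sub_distrib] at a1 ⊢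
  linear_combination a1

end Der

theorem pow_step {μ : Type} [Fintype μ] [DecidableEq μ] [Nontrivial μ]
    {G : MvPolynomial (μ ⊕ μ) ℂ} (a : μ) {i : ℕ} (h0 : JJ μ ^ (i + 1) ∣ G)
    (h1 : JJ μ ^ (i + 1) ∣ pderiv (.inl a) G) : JJ μ ^ (i + 1 + 1) ∣ G := by
  obtain ⟨g, rfl⟩ := h0
  rw [pderiv_mul, pderiv_pow, pd_inl, dvd_add_left (dvd_mul_right _ _), Nat.add_sub_cancel,
    show ((i + 1 : ℕ) : MvPolynomial (μ ⊕ μ) ℂ) * JJ μ ^ i * X (.inr a) * g =
      JJ μ ^ i * (C ((i + 1 : ℕ) : ℂ) * (X (.inr a) * g)) by rw [map_natCast]; ring, pow_succ,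
    mul_dvd_mul_iff_left (pow_ne_zero _ prime_JJ.ne_zero),
    (IsUnit.map C (IsUnit.mk0 _ (Nat.cast_ne_zero.2 (Nat.succ_ne_zero i)))).dvd_mul_left] at h1
  rw [pow_succ _ (i + 1)]
  exact mul_dvd_mul_left _ ((prime_JJ.dvd_or_dvd h1).resolve_left (not_dvd_X _))

variable {m N : ℕ}

/-- restriction to lines through the base point in tangent directions -/
def ps (U : Matrix (Fin (m + 1)) (Fin (m + 1)) ℂ) : AA (m + 1) →ₐ[ℂ] PP m :=
  aeval (Sum.elim (fun l => C (U l 0)) fun l => ∑ i, C (U l i.succ) * X i)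

theorem ps_inl (U : Matrix (Fin (m + 1)) (Fin (m + 1)) ℂ) (l : Fin (m + 1)) :
    ps U (X (.inl l)) = C (U l 0) := aeval_X _ _

theorem ps_inr (U : Matrix (Fin (m + 1)) (Fin (m + 1)) ℂ) (l : Fin (m + 1)) :
    ps U (X (.inr l)) = ∑ i, C (U l i.succ) * X i := aeval_X _ _

theorem eval_ps (U : Matrix (Fin (m + 1)) (Fin (m + 1)) ℂ) (v : Fin m → ℂ) (g : AA (m + 1)) :
    eval v (ps U g) = eval (pt U v) g := by
  induction g using MvPolynomial.induction_on with
  | C a => simp
  | add p q hp hq => rw [map_add, map_add, hp, hq, map_add]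
  | mul_X p a h => rw [map_mul, map_mul, h, map_mul]; cases a <;> simp [ps_inl, ps_inr, pt]

theorem pderiv_ps (U : Matrix (Fin (m + 1)) (Fin (m + 1)) ℂ) (i : Fin m) (g : AA (m + 1)) :
    pderiv i (ps U g) = ∑ l, C (U l i.succ) * ps U (pderiv (.inr l) g) := by
  induction g using MvPolynomial.induction_on with
  | C a => simp
  | add p q hp hq => simp only [map_add, hp, hq, mul_add, Finset.sum_add_distrib]
  | mul_X p a h =>
    simp only [map_mul, pderiv_mul, h, map_add, mul_add, Finset.sum_add_distrib, Finset.sum_mul,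
      mul_assoc]
    congr 1
    cases a <;> simp [ps_inl, ps_inr, Pi.single_apply, apply_ite, mul_comm]

/-- reduction modulo the image of the base point, with polynomial entries -/
def red (U : Matrix (Fin (m + 1)) (Fin (m + 1)) ℂ) (f : Fin N → ℂ)
    (s : Option (Fin N) → AA (m + 1)) (j : Fin N) : PP m :=
  ps U (s (some j)) - C (f j) * ps U (s none)

theorem eval_red (U : Matrix (Fin (m + 1)) (Fin (m + 1)) ℂ) (f : Fin N → ℂ)
    (s : Option (Fin N) → AA (m + 1)) (v : Fin m → ℂ) :
    (fun j => eval v (red U f s j)) = rd f fun j => eval (pt U v) (s j) :=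
  funext fun j => by simp [red, rd, eval_ps, mul_comm]

variable (F : Option (Fin N) → PP (m + 1)) (U : Matrix (Fin (m + 1)) (Fin (m + 1)) ℂ)
  (f : Fin N → ℂ)

/-- the span of the jets along a tangent line -/
abbrev WW (v : Fin m → ℂ) : Submodule ℂ (Fin N → ℂ) :=
  Submodule.span ℂ (Set.range fun l => rd f (jt F U v l))

theorem mem_WW (a : ℕ → AA (m + 1)) (M i : ℕ) (v : Fin m → ℂ) : (fun j => eval v (red U f
    (fun j => ∑ k ∈ Finset.range M, a k * (LL (F j)).coeff (k + i)) j)) ∈ WW F U f v := by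
  rw [eval_red, show (fun j => eval (pt U v) (∑ k ∈ Finset.range M, a k * (LL (F j)).coeff (k + i))) =
    ∑ k ∈ Finset.range M, eval (pt U v) (a k) • jt F U v (k + i) from funext fun j => by
      simp [jt, Finset.sum_apply], map_sum]
  refine Submodule.sum_mem _ fun k _ => ?_
  rw [map_smul]
  exact Submodule.smul_mem _ _ (Submodule.subset_span ⟨_, rfl⟩)

/-- the reduced map on the tangent hyperplane -/
def Bt : Fin N → PP m := red U f fun j => (LL (F j)).eval 1

theorem Bt_mem {d : ℕ} (hF : ∀ j, (F j).totalDegree ≤ d) (v : Fin m → ℂ) :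
    (fun j => eval v (Bt F U f j)) ∈ WW F U f v := by
  have h := mem_WW F U f (fun _ => 1) (d + 1) 0 v
  have e : (fun j => (LL (F j)).eval 1) =
      fun j => ∑ k ∈ Finset.range (d + 1), 1 * (LL (F j)).coeff (k + 0) := funext fun j => by
    rw [Polynomial.eval_eq_sum_range' (Nat.lt_succ_of_le ((natDegree_LL _).trans (hF j)))]
    simp
  rwa [Bt, e]

/-- pairing with the reduced map -/
def hat : (Fin N → ℂ) →ₗ[ℂ] PP m :=
  Fintype.linearCombination ℂ fun j => map (starRingEnd ℂ) (Bt F U f j)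

theorem eval_conj (y : Fin m → ℂ) (B : PP m) :
    eval y (map (starRingEnd ℂ) B) = star (eval (star y) B) := by
  induction B using MvPolynomial.induction_on with
  | C a => simp
  | add p q hp hq => simp only [map_add, hp, hq, star_add]
  | mul_X p a h => simp [h]

theorem eval_hat (x : Fin N → ℂ) (y : Fin m → ℂ) :
    eval y (hat F U f x) = x ⬝ᵥ star fun j => eval (star y) (Bt F U f j) := by
  simp only [hat, Fintype.linearCombination_apply, dotProduct, map_sum, smul_eval, eval_conj,
    Pi.star_apply]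

theorem perp {x : Fin N → ℂ} {v : Fin m → ℂ} (h : ∀ t : ℂ, eval (star (t • v)) (hat F U f x) = 0) :
    ∀ y ∈ WW F U f v, y ⬝ᵥ star x = 0 := by
  have e0 : ∀ (g : PP (m + 1)) (t : ℂ), eval (pt U (t • v)) ((LL g).eval 1) =
      ((LL g).map (eval (pt U v))).eval t := fun g t => by
    rw [← Polynomial.eval_one_map, pt, pt, LL_eval, LL_eval]
    congr 2
    funext l
    simp [Finset.mul_sum, mul_left_comm]
  have e1 := coeff_dot (fun j => (LL (F (some j))).map (eval (pt U v)) -
    (LL (F none)).map (eval (pt U v)) * Polynomial.C (f j)) (star x) fun t => by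
      have h1 := h t
      rw [eval_hat, star_star] at h1
      rw [← dot_symm h1, Bt, eval_red]
      congr 1
      funext j
      simp [rd, e0]
  refine span_dot fun l => ?_
  rw [← e1 l]
  congr 1
  funext j
  simp [rd, jt]

/-- the shifted relation -/
def sg (d : ℕ) (φ : ℕ → AA (m + 1)) (j : Option (Fin N)) : AA (m + 1) :=
  ∑ k ∈ Finset.range d, φ k * (LL (F j)).coeff (k + 1)

theorem order [Nontrivial (Fin m)] {d : ℕ} (hF : ∀ j, (F j).totalDegree ≤ d)
    (hf : ∀ j, eval (fun l => U l 0) (F (some j)) = eval (fun l => U l 0) (F none) * f j)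
    (h3 : ∀ v v', v ⬝ᵥ star v' = 0 → ∀ x ∈ WW F U f v, ∀ x' ∈ WW F U f v', x ⬝ᵥ star x' = 0)
    (i : ℕ) : ∀ φ : ℕ → AA (m + 1),
      (∀ l < i, ∀ j, ∑ k ∈ Finset.range (d + 1), φ (k + l) * (LL (F j)).coeff k = 0) →
      JJ (Fin m) ^ (i + 1) ∣
        bil (red U f (sg F d φ)) fun j => map (starRingEnd ℂ) (Bt F U f j) := by
  induction i with
  | zero =>
    intro φ _
    rw [zero_add, pow_one]
    refine dvd_of_vanish fun x hx => ?_
    rw [eval_bil]
    exact h3 _ _ (by rw [star_star, ← hx, eval_JJ]; rfl) _ (mem_WW F U f φ d 1 _) _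
      (Bt_mem F U f hF _)
  | succ i ih =>
    intro φ hφ
    obtain ⟨a, -, -⟩ := exists_pair_ne (Fin m)
    have hz : ∀ j, (LL (F j)).coeff (d + 1) = 0 := fun j =>
      Polynomial.coeff_eq_zero_of_natDegree_lt (Nat.lt_succ_of_le ((natDegree_LL _).trans (hF j)))
    refine pow_step a (ih φ fun l hl => hφ l (by omega)) ?_
    have c0 : ∀ j, ps U ((LL (F j)).coeff 0) = C (eval (fun l => U l 0) (F j)) := fun j =>
      MvPolynomial.funext fun v => by rw [eval_ps, eval_C, ← jt_zero F U v j, jt]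
    have e1 : ∀ j, pderiv a (red U f (sg F d φ) j) = ∑ l, C (U l a.succ) * red U f
        (sg F d fun k => pderiv (.inr l) (φ k) - pderiv (.inl l) (φ (k + 1))) j := by
      intro j
      have e2 : ∀ l j, pderiv (.inr l) (sg F d φ j) =
          sg F d (fun k => pderiv (.inr l) (φ k) - pderiv (.inl l) (φ (k + 1))) j -
            pderiv (.inl l) (φ 0) * (LL (F j)).coeff 0 := by
        intro l j
        have r0 := hφ 0 (by omega) j
        simp only [add_zero] at r0
        exact der_shift (Sum.inl l) (Sum.inr l) (c := (LL (F j)).coeff) (pd_LL l (F j)).2 (hz j) r0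
      simp only [red, map_sub, pderiv_C_mul, pderiv_ps, e2, map_mul, c0, hf, Finset.mul_sum,
        ← Finset.sum_sub_distrib]
      exact Finset.sum_congr rfl fun l _ => by ring
    rw [bil_inl]
    simp only [e1]
    rw [show bil (fun j => ∑ l, C (U l a.succ) * red U f (sg F d fun k =>
        pderiv (.inr l) (φ k) - pderiv (.inl l) (φ (k + 1))) j)
        (fun j => map (starRingEnd ℂ) (Bt F U f j)) = ∑ l, C (U l a.succ) * bil (red U f (sg F d
        fun k => pderiv (.inr l) (φ k) - pderiv (.inl l) (φ (k + 1))))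
        (fun j => map (starRingEnd ℂ) (Bt F U f j)) by
      simp only [bil, map_sum, map_mul, rename_C, Finset.sum_mul, Finset.mul_sum, mul_assoc]
      exact Finset.sum_comm]
    refine Finset.dvd_sum fun l _ => Dvd.dvd.mul_left (ih _ fun l' hl' j => ?_) _
    exact der_kill (Sum.inl l) (Sum.inr l) (c := (LL (F j)).coeff)
      (φ := φ) (pd_LL l (F j)).1 (pd_LL l (F j)).2 (hz j)
      (hφ l' (by omega) j) (hφ (l' + 1) (by omega) j)

theorem spec_bil (v : Fin m → ℂ) (S : Fin N → PP m) :
    aeval (Sum.elim (fun i => C (v i)) X : Fin m ⊕ Fin m → PP m)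
      (bil S fun j => map (starRingEnd ℂ) (Bt F U f j)) = hat F U f fun j => eval v (S j) := by
  simp only [bil, map_sum, map_mul, aeval_rename, hat, Fintype.linearCombination_apply,
    Sum.elim_comp_inl, Sum.elim_comp_inr, aeval_X_left_apply, smul_eq_C_mul]
  refine Finset.sum_congr rfl fun j _ => ?_
  congr 1
  exact MvPolynomial.funext fun y => by rw [eval_sub, eval_C]; simp

theorem ev_ax {k : ℕ} (u : Fin k) (τ : ℂ) (g : PP (k + 1)) :
    (ax ((sb 0 g).coeff 0) u).eval τ = eval (Pi.single u.succ τ) g := by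
  rw [ax_apply]
  obtain ⟨E, hE⟩ : ∃ E : PP k →ₐ[ℂ] Polynomial ℂ,
    E = aeval (fun w => if w = u then (Polynomial.X : Polynomial ℂ) else 0) := ⟨_, rfl⟩
  rw [← hE]
  induction g using MvPolynomial.induction_on with
  | C a => rw [sb_C, Polynomial.coeff_C_zero, hE, aeval_C, eval_C]; simp
  | add p q hp hq =>
    rw [map_add (sb 0), Polynomial.coeff_add, map_add E, Polynomial.eval_add, hp, hq, map_add]
  | mul_X p i h =>
    rw [map_mul (sb 0), Polynomial.mul_coeff_zero, map_mul E, Polynomial.eval_mul, h, map_mul,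
      eval_X]
    refine congrArg _ ?_
    refine Fin.cases ?_ (fun w => ?_) i
    · rw [sb_zero]
      simp
    · rw [sb_succ, Polynomial.coeff_C_zero, hE, aeval_X]
      by_cases e : w = u <;> simp [e]

end Pool.Agent.MP_eddcad_an.h49

end
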